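import Pool.Agent.H3.SB.TT

set_option autoImplicit false

/-!
# [H3 SB BSY] The form is symmetric on `WX Y` and has the characteristic vector `1`

Let `x, y ∈ WX Y`, `a = dgp Y x 0 = dgp Y x 1 = dgp Y x 2`, `b` the same for `y`, `ε = bt (-1)`.
* `bf_sym`: `bf_eq` for `(x, y)` and `(y, x)` (`x * y = y * x`), `tt_sym` for the six pairs: `bf Y x y + bf Y y x = 6 ε a b = 0`, characteristic `2`.
* `bf_chr`: `bf_eq` for `(x, x)`: `x * x = x` (in `ZMod 2`), and `tt Y i j x x + tt Y j i x x = ε * a * a = ε * a` for the three pairs (`tt_sym`): `bf Y x x = ∑ i, ee Y i (i + 1) x + 3 ε a`.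
  `bf_eq` for `(x, 1)`: `x * 1 = x`, `tt_one` for the six pairs: `∑_{i ≠ j} ee Y i j x + ∑_{i ≠ j} (bt (lc j) + ε d) a`, where `∑_{i ≠ j} (..) = 2 ∑_j bt (lc j) + 6 ε d = 0`, and `ee Y i (i + 1) x + ee Y i (i + 2) x = ε a` (`ee_two`, characteristic `2`), in total `3 ε a`.  Both are `∑ i, ee Y i (i + 1) x + ε a`.
* `one_mem`: `dgp_one`.
-/

namespace Pool.Agent.H3.SB

open Polynomial
open Pool.Agent.H94.PC
open Pool.Agent.H94.PS

variable {F : Type} [Field F] [Finite F] {d : ℕ} {Y : Fin 3 → F[X]}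

theorem one_mem (h : Tr d Y) : (1 : SX Y → ZMod 2) ∈ WX Y := by
  intro i
  rw [dgp_one h, dgp_one h]

theorem bf_sym (h : Tr d Y) {x y : SX Y → ZMod 2} (hx : x ∈ WX Y) (hy : y ∈ WX Y) :
    bf Y x y = bf Y y x := by
  have h2 : (2 : ZMod 2) = 0 := by decide
  have hxy : y * x = x * y := mul_comm _ _
  have hx1 : dgp Y x 1 = dgp Y x 0 := hx 1
  have hx2 : dgp Y x 2 = dgp Y x 0 := hx 2
  have hy1 : dgp Y y 1 = dgp Y y 0 := hy 1
  have hy2 : dgp Y y 2 = dgp Y y 0 := hy 2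
  have h01 := tt_sym h (i := 0) (j := 1) (by decide) x y
  have h10 := tt_sym h (i := 1) (j := 0) (by decide) x y
  have h02 := tt_sym h (i := 0) (j := 2) (by decide) x y
  have h20 := tt_sym h (i := 2) (j := 0) (by decide) x y
  have h12 := tt_sym h (i := 1) (j := 2) (by decide) x y
  have h21 := tt_sym h (i := 2) (j := 1) (by decide) x y
  rw [hx1] at h01
  rw [hy1] at h10
  rw [hx2] at h02
  rw [hy2] at h20
  rw [hy1, hx2] at h12
  rw [hy2, hx1] at h21
  rw [bf_eq, bf_eq, hxy]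
  linear_combination h01 + h10 + h02 + h20 + h12 + h21 +
    (-(tt Y 0 1 y x + tt Y 1 0 y x + tt Y 0 2 y x + tt Y 2 0 y x + tt Y 1 2 y x + tt Y 2 1 y x) +
      3 * (bt (-1 : F) * (dgp Y y 0 * dgp Y x 0))) * h2

theorem bf_chr (h : Tr d Y) {x : SX Y → ZMod 2} (hx : x ∈ WX Y) : bf Y x x = bf Y x 1 := by
  have h2 : (2 : ZMod 2) = 0 := by decide
  have hsq : ∀ a : ZMod 2, a * a = a := by decide
  have hxx : x * x = x := by
    funext p
    exact hsq (x p)
  have hx1 : dgp Y x 1 = dgp Y x 0 := hx 1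
  have hx2 : dgp Y x 2 = dgp Y x 0 := hx 2
  have h01 := tt_sym h (i := 0) (j := 1) (by decide) x x
  have h02 := tt_sym h (i := 0) (j := 2) (by decide) x x
  have h12 := tt_sym h (i := 1) (j := 2) (by decide) x x
  rw [hx1, hsq] at h01
  rw [hx2, hsq] at h02
  rw [hx1, hx2, hsq] at h12
  have t01 := tt_one h (i := 1) (j := 0) (by decide) x
  have t10 := tt_one h (i := 0) (j := 1) (by decide) x
  have t02 := tt_one h (i := 2) (j := 0) (by decide) x
  have t20 := tt_one h (i := 0) (j := 2) (by decide) x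
  have t12 := tt_one h (i := 2) (j := 1) (by decide) x
  have t21 := tt_one h (i := 1) (j := 2) (by decide) x
  have e0 : ee Y 0 2 x = bt (-1 : F) * dgp Y x 0 + ee Y 0 1 x := ee_two h 0 x
  have e1 : ee Y 1 0 x = bt (-1 : F) * dgp Y x 1 + ee Y 1 2 x := ee_two h 1 x
  have e2 : ee Y 2 1 x = bt (-1 : F) * dgp Y x 2 + ee Y 2 0 x := ee_two h 2 x
  rw [hx1] at t01 t21 e1
  rw [hx2] at t02 t12 e2
  rw [bf_eq, bf_eq, hxx, mul_one, t01, t10, t02, t20, t12, t21, e0, e1, e2]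
  linear_combination h01 + h02 + h12 -
    (ee Y 0 1 x + ee Y 1 2 x + ee Y 2 0 x +
      (bt (Y 0).leadingCoeff + bt (Y 1).leadingCoeff + bt (Y 2).leadingCoeff +
        3 * (bt (-1 : F) * (d : ZMod 2))) * dgp Y x 0) * h2

end Pool.Agent.H3.SB
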