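import Pool.Agent.H3.SB.LRG

set_option autoImplicit false

/-!
# [H3 SB CRD] The numbers of the medium primes of a typical triple

`L = ⌊log d⌋`, `δ = dlt d = ⌈3 (log d)^(3/4)⌉ + 4`.  `card (Med d Y i) = om (Y i) - omt (thr d) (Y i)` (as real numbers: `om - omt` is the number of the `P ∈ pf (Y i)` with `thr d ≤ natDegree`; a bijection `P ↦ ⟨i, P⟩`), and `card (Mdm d e Y i) = card (Med d Y i) - 1` for `Fm d e Y`, `2 e < d`, `thr d + e ≤ d`
(`lrg_ex`, `lrg_uniq`: exactly one non-tiny prime of the class is not medium; it is non-tiny as its degree is `≥ d - e ≥ thr d`).  With `Typ d Y`: `|om (Y i) - log d| ≤ (log d)^(3/4)`, `omt ≤ (log d)^(3/4)`.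
* `med_card1`, `med_card2`, `med_tot`, and the same for `Mdm`: `L ≤ log d < L + 1`.  `card (SX Y) = ∑ i, om (Y i)` (`card_SX`), `∑ i, omt ≤ 3 (log d)^(3/4)`.
* `big`: for large `d`: `log d ≥ 2 (log d)^(3/4) + 2` and `2 * thr d < d` (`(log d)^2 + 1` against `d / 2`), so all `Mdm` are non-empty and `thr d + e ≤ d` for `2 e < d`.
* disjointness: the classes are different.
-/

namespace Pool.Agent.H3.SB

open Polynomial
open Pool.Agent.H94.PC
open Pool.Agent.H94.PS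
open Pool.Agent.H3

/-- the tolerance for the numbers of primes -/
noncomputable def dlt (d : ℕ) : ℕ := ⌈3 * Real.log d ^ (3 / 4 : ℝ)⌉₊ + 4

/-- `d` is large enough -/
def Big (d : ℕ) : Prop :=
  2 * Real.log d ^ (3 / 4 : ℝ) + 2 ≤ Real.log d ∧ 2 * thr d < d

theorem big : ∃ d₀ : ℕ, ∀ d : ℕ, d₀ ≤ d → Big d := by
  have hlog : Filter.Tendsto (fun d : ℕ => Real.log (d : ℝ)) Filter.atTop Filter.atTop :=
    Real.tendsto_log_atTop.comp tendsto_natCast_atTop_atTop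
  have h1 : ∀ᶠ t : ℝ in Filter.atTop, 3 ≤ t ^ (1 / 4 : ℝ) :=
    (tendsto_rpow_atTop (by norm_num : (0 : ℝ) < 1 / 4)).eventually_ge_atTop 3
  have h2 : ∀ᶠ t : ℝ in Filter.atTop, 2 ≤ t ^ (3 / 4 : ℝ) :=
    (tendsto_rpow_atTop (by norm_num : (0 : ℝ) < 3 / 4)).eventually_ge_atTop 2
  have h3 : ∀ᶠ t : ℝ in Filter.atTop, 0 < t := Filter.eventually_gt_atTop 0
  have h4 : ∀ᶠ t : ℝ in Filter.atTop, 2 * t ^ (3 / 4 : ℝ) + 2 ≤ t := by
    filter_upwards [h1, h2, h3] with t ha hb hc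
    have hd : t = t ^ (3 / 4 : ℝ) * t ^ (1 / 4 : ℝ) := by
      rw [← Real.rpow_add hc]
      norm_num
    nlinarith [mul_le_mul_of_nonneg_left ha (by linarith : (0 : ℝ) ≤ t ^ (3 / 4 : ℝ))]
  have h5 : ∀ᶠ d : ℕ in Filter.atTop, 2 * Real.log d ^ (3 / 4 : ℝ) + 2 ≤ Real.log d :=
    hlog.eventually h4
  have h6 : ∀ᶠ x : ℝ in Filter.atTop, ‖Real.log x ^ 2‖ ≤ 1 / 8 * ‖x‖ :=
    Real.isLittleO_pow_log_id_atTop.def (by norm_num)
  have h7 : ∀ᶠ d : ℕ in Filter.atTop, ‖Real.log (d : ℝ) ^ 2‖ ≤ 1 / 8 * ‖(d : ℝ)‖ :=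
    tendsto_natCast_atTop_atTop.eventually h6
  have h8 : ∀ᶠ d : ℕ in Filter.atTop, 3 ≤ d := Filter.eventually_ge_atTop 3
  obtain ⟨d₀, hd₀⟩ := Filter.eventually_atTop.1 (h5.and (h7.and h8))
  refine ⟨d₀, fun d hd => ⟨(hd₀ d hd).1, ?_⟩⟩
  have h9 := (hd₀ d hd).2.1
  have h10 : (3 : ℝ) ≤ (d : ℝ) := by exact_mod_cast (hd₀ d hd).2.2
  have h11 : (0 : ℝ) ≤ Real.log (d : ℝ) ^ 2 := sq_nonneg _
  rw [Real.norm_of_nonneg h11, Real.norm_of_nonneg (by linarith)] at h9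
  have h12 : (thr d : ℝ) < Real.log (d : ℝ) ^ 2 + 1 := by
    unfold thr
    exact Nat.ceil_lt_add_one h11
  have h13 : ((2 * thr d : ℕ) : ℝ) < (d : ℝ) := by
    push_cast
    linarith
  exact_mod_cast h13

variable {F : Type} [Field F] [Finite F] {d e : ℕ} {Y : Fin 3 → F[X]}

/-- the conditions on the numbers of primes in `CNT` -/
structure CC (d : ℕ) (Y : Fin 3 → F[X]) (M : Fin 3 → Finset (SX Y)) : Prop where
  ne : ∀ i, (M i).Nonempty
  dj : ∀ i j, i ≠ j → Disjoint (M i) (M j)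
  lo : ∀ i, ⌊Real.log d⌋₊ ≤ (M i).card + dlt d
  up : ∀ i, (M i).card ≤ ⌊Real.log d⌋₊ + dlt d
  tot : Nat.card (SX Y) ≤ (M 0).card + (M 1).card + (M 2).card + dlt d

private theorem card_med (htd : thr d + e ≤ d) (i : Fin 3) :
    (Med d Y i).card + omt (thr d) (Y i) = om (Y i) := by
  classical
  have h1 : (Med d Y i).card = ((pf (Y i)).filter fun P => ¬ P.natDegree < thr d).card := by
    symm
    refine Finset.card_bij
      (fun P hP => (⟨i, ⟨P, (Finset.mem_filter.1 hP).1⟩⟩ : SX Y)) ?_ ?_ ?_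
    · intro P hP
      exact mem_Med.2 ⟨rfl, not_lt.1 (Finset.mem_filter.1 hP).2⟩
    · intro P hP Q hQ hPQ
      have h2 := eq_of_heq (Sigma.mk.inj hPQ).2
      exact congrArg Subtype.val h2
    · rintro ⟨j, P, hP⟩ hp
      obtain ⟨h2, h3⟩ := mem_Med.1 hp
      dsimp only at h2 h3
      subst h2
      exact ⟨P, Finset.mem_filter.2 ⟨hP, not_lt.2 h3⟩, rfl⟩
  rw [h1]
  unfold omt om
  rw [add_comm]
  exact Finset.card_filter_add_card_filter_not _

private theorem card_mdm (h : Fm d e Y) (he : 2 * e < d) (htd : thr d + e ≤ d) (i : Fin 3) :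
    (Mdm d e Y i).card + 1 = (Med d Y i).card := by
  classical
  obtain ⟨p₀, hi, hp₀⟩ := lrg_ex h i
  have h1 : p₀ ∉ Mdm d e Y i := by
    intro hmem
    have := (mem_Mdm.1 hmem).2.2
    omega
  have h2 : Med d Y i = insert p₀ (Mdm d e Y i) := by
    ext p
    rw [Finset.mem_insert, mem_Med, mem_Mdm]
    constructor
    · rintro ⟨ha, hb⟩
      by_cases hc : p.2.1.natDegree + e < d
      · exact Or.inr ⟨ha, hb, hc⟩
      · exact Or.inl (lrg_uniq h.1 he (ha.trans hi.symm) (not_lt.1 hc) hp₀)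
    · rintro (rfl | ⟨ha, hb, hc⟩)
      · exact ⟨hi, by omega⟩
      · exact ⟨ha, hb⟩
  rw [h2, Finset.card_insert_of_notMem h1]

private theorem cc_of (hd : Big d) (ht : Typ d Y) {M : Fin 3 → Finset (SX Y)} (c : ℕ) (hc : c ≤ 1)
    (hM : ∀ i, ∀ p ∈ M i, p.1 = i)
    (hcard : ∀ i, (M i).card + c + omt (thr d) (Y i) = om (Y i)) : CC d Y M := by
  have hl0 : (0 : ℝ) ≤ Real.log d := Real.log_natCast_nonneg d
  have hs0 : (0 : ℝ) ≤ Real.log d ^ (3 / 4 : ℝ) := Real.rpow_nonneg hl0 _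
  have hdl : 3 * Real.log d ^ (3 / 4 : ℝ) + 4 ≤ (dlt d : ℝ) := by
    unfold dlt
    push_cast
    have := Nat.le_ceil (3 * Real.log d ^ (3 / 4 : ℝ))
    linarith
  have hcr : (c : ℝ) ≤ 1 := by exact_mod_cast hc
  have hc0 : (0 : ℝ) ≤ (c : ℝ) := Nat.cast_nonneg c
  have hbig := hd.1
  have hR : ∀ i, ((M i).card : ℝ) + c + (omt (thr d) (Y i) : ℝ) = (om (Y i) : ℝ) := by
    intro i
    exact_mod_cast hcard i
  have ho : ∀ i, Real.log d - Real.log d ^ (3 / 4 : ℝ) ≤ (om (Y i) : ℝ) ∧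
      (om (Y i) : ℝ) ≤ Real.log d + Real.log d ^ (3 / 4 : ℝ) := by
    intro i
    have h1 := abs_le.1 (ht i).1
    exact ⟨by linarith [h1.1], by linarith [h1.2]⟩
  have hm : ∀ i, (0 : ℝ) ≤ (omt (thr d) (Y i) : ℝ) ∧
      (omt (thr d) (Y i) : ℝ) ≤ Real.log d ^ (3 / 4 : ℝ) :=
    fun i => ⟨Nat.cast_nonneg _, (ht i).2⟩
  refine ⟨fun i => ?_, fun i j hij => ?_, fun i => ?_, fun i => ?_, ?_⟩
  · rw [← Finset.card_pos]
    have h1 : (0 : ℝ) < ((M i).card : ℝ) := by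
      have := hR i
      have := (ho i).1
      have := (hm i).2
      linarith
    exact_mod_cast h1
  · rw [Finset.disjoint_left]
    intro p hp hq
    exact hij ((hM i p hp).symm.trans (hM j p hq))
  · have h1 : (⌊Real.log d⌋₊ : ℝ) ≤ Real.log d := Nat.floor_le hl0
    have h2 : (⌊Real.log d⌋₊ : ℝ) ≤ (((M i).card + dlt d : ℕ) : ℝ) := by
      push_cast
      have := hR i
      have := (ho i).1
      have := (hm i).2
      linarith
    exact_mod_cast h2
  · have h1 : Real.log d < (⌊Real.log d⌋₊ : ℝ) + 1 := Nat.lt_floor_add_one _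
    have h2 : ((M i).card : ℝ) ≤ ((⌊Real.log d⌋₊ + dlt d : ℕ) : ℝ) := by
      push_cast
      have := hR i
      have := (ho i).2
      have := (hm i).1
      linarith
    exact_mod_cast h2
  · rw [card_SX]
    have h2 : ((om (Y 0) + om (Y 1) + om (Y 2) : ℕ) : ℝ) ≤
        (((M 0).card + (M 1).card + (M 2).card + dlt d : ℕ) : ℝ) := by
      push_cast
      have a0 := hR 0
      have a1 := hR 1
      have a2 := hR 2
      have b0 := (hm 0).2
      have b1 := (hm 1).2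
      have b2 := (hm 2).2
      linarith
    exact_mod_cast h2

theorem cc_med (hd : Big d) (h : Fm d e Y) (he : 2 * e < d) (ht : Typ d Y) :
    CC d Y (Med d Y) := by
  have htd : thr d + e ≤ d := by
    have := hd.2
    omega
  refine cc_of hd ht 0 (by norm_num) (fun i p hp => (mem_Med.1 hp).1) fun i => ?_
  rw [add_zero]
  exact card_med htd i

theorem cc_mdm (hd : Big d) (h : Fm d e Y) (he : 2 * e < d) (ht : Typ d Y) :
    CC d Y (Mdm d e Y) := by
  have htd : thr d + e ≤ d := by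
    have := hd.2
    omega
  refine cc_of hd ht 1 (by norm_num) (fun i p hp => (mem_Mdm.1 hp).1) fun i => ?_
  have h1 := card_med (Y := Y) htd i
  have h2 := card_mdm h he htd i
  omega

end Pool.Agent.H3.SB
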