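import Pool.Agent.H3.SB.PW

set_option autoImplicit false

/-!
# [H3 SB ERR] The error terms

`l = log d`, `dlt d ≤ 3 l^(3/4) + 5`, `⌊l⌋ ≥ l - 1`.
* `errb_le`: `errb k d ≤ C exp (C l^(3/4))` with `C` depending on `k`.
* `errb_lim`: `C exp (C l^(3/4)) * d ^ (- c) = C exp (C l^(3/4) - c l) → 0` (`l → ∞`, `l^(3/4) = o(l)`).
* `err_lim`: `(1 - 1 / 8 ^ k) ^ ⌊l⌋ ≤ exp (- (l - 1) / 8 ^ k)` (`1 - x ≤ exp (- x)`), the same.
-/

namespace Pool.Agent.H3.SB

open Filter

private theorem err_core (B D : ℝ) {c : ℝ} (hc : 0 < c) :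
    Tendsto (fun d : ℕ => Real.exp (B * Real.log d ^ (3 / 4 : ℝ) + D - c * Real.log d)) atTop
      (nhds 0) := by
  have h1 : Tendsto (fun l : ℝ => l * (B * l ^ (-(1 / 4) : ℝ) - c)) atTop atBot := by
    have h2 : Tendsto (fun l : ℝ => B * l ^ (-(1 / 4) : ℝ) - c) atTop (nhds (B * 0 - c)) :=
      ((tendsto_rpow_neg_atTop (by norm_num : (0 : ℝ) < 1 / 4)).const_mul B).sub_const c
    rw [mul_zero, zero_sub] at h2
    exact tendsto_id.atTop_mul_neg (by linarith) h2
  have h3 : Tendsto (fun l : ℝ => l * (B * l ^ (-(1 / 4) : ℝ) - c) + D) atTop atBot :=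
    tendsto_atBot_add_const_right _ _ h1
  have h4 : Tendsto (fun d : ℕ => Real.log (d : ℝ)) atTop atTop :=
    Real.tendsto_log_atTop.comp tendsto_natCast_atTop_atTop
  have h5 := Real.tendsto_exp_atBot.comp (h3.comp h4)
  refine h5.congr' ?_
  filter_upwards [h4.eventually_gt_atTop 0] with d hd
  show Real.exp (Real.log d * (B * Real.log d ^ (-(1 / 4) : ℝ) - c) + D) = _
  congr 1
  have h6 : Real.log d * Real.log d ^ (-(1 / 4) : ℝ) = Real.log d ^ (3 / 4 : ℝ) := by
    nth_rewrite 1 [← Real.rpow_one (Real.log d)]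
    rw [← Real.rpow_add hd]
    norm_num
  rw [← h6]
  ring

private theorem errb_le (k d : ℕ) (hd : 1 ≤ d) : errb k d ≤
    4 * 64 ^ (4 ^ k) * 4 ^ k *
      Real.exp (33 * k * Real.log 2 * Real.log d ^ (3 / 4 : ℝ) + 55 * k * Real.log 2) := by
  unfold errb
  have hl : 0 ≤ Real.log d := Real.log_nonneg (by exact_mod_cast hd)
  have hl2 : 0 ≤ Real.log 2 := Real.log_nonneg (by norm_num)
  have hlr : 0 ≤ Real.log d ^ (3 / 4 : ℝ) := Real.rpow_nonneg hl _
  apply mul_le_mul_of_nonneg_left _ (by positivity)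
  have h1 : (2 : ℝ) ^ (11 * k * dlt d) = Real.exp (Real.log 2 * ((11 * k * dlt d : ℕ) : ℝ)) := by
    rw [← Real.rpow_natCast, Real.rpow_def_of_pos (by norm_num)]
  rw [h1]
  apply Real.exp_le_exp.mpr
  have h2 : (dlt d : ℝ) ≤ 3 * Real.log d ^ (3 / 4 : ℝ) + 5 := by
    unfold dlt
    push_cast
    have := (Nat.ceil_lt_add_one (by positivity : 0 ≤ 3 * Real.log d ^ (3 / 4 : ℝ))).le
    linarith
  push_cast
  have h3 : Real.log 2 * (11 * k * (dlt d : ℝ)) ≤
      Real.log 2 * (11 * k * (3 * Real.log d ^ (3 / 4 : ℝ) + 5)) := by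
    apply mul_le_mul_of_nonneg_left _ hl2
    apply mul_le_mul_of_nonneg_left h2 (by positivity)
  refine h3.trans (le_of_eq ?_)
  ring

private theorem errb_nonneg (k d : ℕ) : 0 ≤ errb k d := by
  unfold errb
  positivity

theorem errb_lim (k : ℕ) {c : ℝ} (hc : 0 < c) :
    Tendsto (fun d : ℕ => errb k d * (d : ℝ) ^ (-c)) atTop (nhds 0) := by
  have h1 := (err_core (33 * k * Real.log 2) (55 * k * Real.log 2) hc).const_mul
    (4 * 64 ^ (4 ^ k) * 4 ^ k : ℝ)
  rw [mul_zero] at h1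
  refine squeeze_zero' ?_ ?_ h1
  · exact Eventually.of_forall fun d => mul_nonneg (errb_nonneg k d) (by positivity)
  · filter_upwards [eventually_ge_atTop 1] with d hd
    have hd0 : (0 : ℝ) < d := by exact_mod_cast hd
    have h2 : (d : ℝ) ^ (-c) = Real.exp (-(c * Real.log d)) := by
      rw [Real.rpow_def_of_pos hd0]
      congr 1
      ring
    rw [h2]
    refine (mul_le_mul_of_nonneg_right (errb_le k d hd) (Real.exp_pos _).le).trans
      (le_of_eq ?_)
    rw [mul_assoc, ← Real.exp_add]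
    congr 2

theorem err_lim (k : ℕ) : Tendsto (fun d : ℕ => err k d) atTop (nhds 0) := by
  have hc : (0 : ℝ) < 1 / 8 ^ k := by positivity
  have h1 := (err_core (33 * k * Real.log 2) (55 * k * Real.log 2 + 1 / 8 ^ k) hc).const_mul
    (4 * 64 ^ (4 ^ k) * 4 ^ k : ℝ)
  rw [mul_zero] at h1
  have hx : (1 : ℝ) / 8 ^ k ≤ 1 := by
    rw [div_le_one (by positivity)]
    exact one_le_pow₀ (by norm_num)
  refine squeeze_zero' ?_ ?_ h1
  · refine Eventually.of_forall fun d => ?_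
    unfold err
    exact mul_nonneg (errb_nonneg k d) (pow_nonneg (by linarith) _)
  · filter_upwards [eventually_ge_atTop 1] with d hd
    unfold err
    have h2 : (1 - 1 / 8 ^ k : ℝ) ^ ⌊Real.log d⌋₊ ≤
        Real.exp (-(1 / 8 ^ k * (Real.log d - 1))) := by
      have h3 : (1 - 1 / 8 ^ k : ℝ) ≤ Real.exp (-(1 / 8 ^ k)) := by
        have := Real.add_one_le_exp (-(1 / 8 ^ k : ℝ))
        linarith
      refine (pow_le_pow_left₀ (by linarith) h3 _).trans ?_
      rw [← Real.exp_nat_mul]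
      apply Real.exp_le_exp.mpr
      have h4 : Real.log d - 1 ≤ (⌊Real.log d⌋₊ : ℝ) := by
        have := Nat.lt_floor_add_one (Real.log d)
        linarith
      have h5 := mul_le_mul_of_nonneg_left h4 hc.le
      linarith
    refine (mul_le_mul (errb_le k d hd) h2 (pow_nonneg (by linarith) _)
      (by positivity)).trans (le_of_eq ?_)
    rw [mul_assoc, ← Real.exp_add]
    congr 2
    ring

end Pool.Agent.H3.SB
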