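import Pool.Agent.H94.PS.Defs
import Pool.Agent.H94.PC.JsB
import Pool.Agent.H94.PC.Facs

set_option autoImplicit false

/-!
# [H3 SB FCT] Three polynomials with sum zero: factors and symbols

`Tr d Y`: `Y 0 + Y 1 + Y 2 = 0`, all of degree `d`, the product is squarefree.

* `tr_ne`: the product is not `0` (`Squarefree.ne_zero`).  `tr_cop`: `squarefree_mul_iff`, `Squarefree.isRelPrime`.. (two different factors of a squarefree product are coprime; `isRelPrime_iff_isCoprime`).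
* `tr_fac`: `Y i = C (leadingCoeff) * D` with `D` monic squarefree, `pf D = pf (Y i)` (`mem_pf`, an associate has the same divisors), `prod_pf`.  `tr_deg`: `natDegree_prod_pf` for the same `D`.
* `tr_cpr`: `P ∣ Y i`, `tr_cop`.
* `tr_two`: `Y (i + 2) + Y (i + 1) = - Y i` is divisible by `P`, so `js (Y (i + 2)) P = js (- Y (i + 1)) P` (`js_congr`), `- Y (i + 1) = C (-1) * Y (i + 1)`; pass to `lam` by `js_eq_sg` (both coprime to `P`, `tr_cpr`), `sg_inj`, `lam_mul_left`, `lam_C` (or directly with `sg`).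
* `tr_lam`: `tr_fac`, `lam_mul_left`, `lam_C`, and `lam` of a finite product of polynomials prime to `P` is the sum (induction on the finite set, `lam_mul_left`, `lam 1 P = 0` from `js_one_left`).
* `tr_rec`: `lam_recip`; characteristic `2`.
-/

namespace Pool.Agent.H3.SB

open Polynomial
open Pool.Agent.H94.PC
open Pool.Agent.H94.PS

variable {F : Type} [Field F] [Finite F] {d : ℕ} {Y : Fin 3 → F[X]}

theorem tr_ne (h : Tr d Y) (i : Fin 3) : Y i ≠ 0 := by
  have h0 := h.sqf.ne_zero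
  have h1 := left_ne_zero_of_mul h0
  fin_cases i
  · exact left_ne_zero_of_mul h1
  · exact right_ne_zero_of_mul h1
  · exact right_ne_zero_of_mul h0

theorem tr_cop (h : Tr d Y) {i j : Fin 3} (hij : i ≠ j) : IsCoprime (Y i) (Y j) := by
  have h1 := (squarefree_mul_iff.1 h.sqf).1
  have h2 := (squarefree_mul_iff.1 (squarefree_mul_iff.1 h.sqf).2.1).1
  have h01 : IsCoprime (Y 0) (Y 1) := h2.isCoprime
  have h3 : IsCoprime (Y 0 * Y 1) (Y 2) := h1.isCoprime
  have h02 : IsCoprime (Y 0) (Y 2) := h3.of_mul_left_left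
  have h12 : IsCoprime (Y 1) (Y 2) := h3.of_mul_left_right
  fin_cases i <;> fin_cases j
  · exact absurd rfl hij
  · exact h01
  · exact h02
  · exact h01.symm
  · exact absurd rfl hij
  · exact h12
  · exact h02.symm
  · exact h12.symm
  · exact absurd rfl hij

private theorem tr_sqf (h : Tr d Y) (i : Fin 3) : Squarefree (Y i) := by
  have h1 := squarefree_mul_iff.1 h.sqf
  have h2 := squarefree_mul_iff.1 h1.2.1
  fin_cases i
  · exact h2.2.1
  · exact h2.2.2
  · exact h1.2.2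

private theorem tr_mon (h : Tr d Y) (i : Fin 3) : ∃ D : F[X], D.Monic ∧ Squarefree D ∧
    Y i = C (Y i).leadingCoeff * D ∧ pf D = pf (Y i) ∧ D.natDegree = d := by
  have hY := tr_ne h i
  have hl : (Y i).leadingCoeff ≠ 0 := leadingCoeff_ne_zero.2 hY
  have hD : C (Y i).leadingCoeff * (C (Y i).leadingCoeff⁻¹ * Y i) = Y i := by
    rw [← mul_assoc, ← C_mul, mul_inv_cancel₀ hl, C_1, one_mul]
  have hdv : C (Y i).leadingCoeff⁻¹ * Y i ∣ Y i := ⟨C (Y i).leadingCoeff, by
    rw [mul_comm]; exact hD.symm⟩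
  have hm : (C (Y i).leadingCoeff⁻¹ * Y i).Monic := by
    unfold Monic
    rw [leadingCoeff_mul, leadingCoeff_C, inv_mul_cancel₀ hl]
  refine ⟨C (Y i).leadingCoeff⁻¹ * Y i, hm, (tr_sqf h i).squarefree_of_dvd hdv, hD.symm, ?_, ?_⟩
  · ext P
    rw [mem_pf hm.ne_zero, mem_pf hY]
    constructor
    · rintro ⟨h1, h2, h3⟩
      exact ⟨h1, h2, h3.trans hdv⟩
    · rintro ⟨h1, h2, h3⟩
      exact ⟨h1, h2, h3.mul_left _⟩
  · rw [natDegree_C_mul (inv_ne_zero hl), h.deg i]

theorem tr_fac (h : Tr d Y) (i : Fin 3) :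
    Y i = C (Y i).leadingCoeff * ∏ P ∈ pf (Y i), P := by
  obtain ⟨D, h1, h2, h3, h4, _⟩ := tr_mon h i
  rw [← h4, prod_pf h1 h2]
  exact h3

theorem tr_deg (h : Tr d Y) (i : Fin 3) : ∑ P ∈ pf (Y i), P.natDegree = d := by
  obtain ⟨D, h1, h2, h3, h4, h5⟩ := tr_mon h i
  rw [← h4, natDegree_prod_pf h1 h2, h5]

theorem tr_cpr (h : Tr d Y) {i j : Fin 3} (hij : i ≠ j) {P : F[X]} (hP : P ∈ pf (Y i)) :
    IsCoprime (Y j) P :=
  (tr_cop h hij.symm).of_isCoprime_of_dvd_right (mem_pf' hP).2.2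

private theorem lam_congr {A A' B : F[X]} (hB : B.Monic) (h1 : IsCoprime A B)
    (h2 : IsCoprime A' B) (h : B ∣ A - A') : lam A B = lam A' B := by
  apply sg_inj
  rw [← js_eq_sg hB h1, ← js_eq_sg hB h2, js_congr hB h]

theorem tr_two (h : Tr d Y) {i : Fin 3} {P : F[X]} (hP : P ∈ pf (Y i)) :
    lam (Y (i + 2)) P = bt (-1 : F) * (P.natDegree : ZMod 2) + lam (Y (i + 1)) P := by
  obtain ⟨hm, hirr, hdv⟩ := mem_pf' hP
  have n1 : i ≠ i + 1 := by fin_cases i <;> decide
  have n2 : i ≠ i + 2 := by fin_cases i <;> decide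
  have c1 := tr_cpr h n1 hP
  have c2 := tr_cpr h n2 hP
  have hC : IsCoprime (C (-1 : F)) P := jsB_coprime_C (neg_ne_zero.2 one_ne_zero) P
  have hs : Y i + Y (i + 1) + Y (i + 2) = 0 := by
    have h0 := h.sum
    fin_cases i
    · exact h0
    · show Y 1 + Y 2 + Y 0 = 0
      rw [← h0]; ring
    · show Y 2 + Y 0 + Y 1 = 0
      rw [← h0]; ring
  have h1 : lam (Y (i + 2)) P = lam (C (-1) * Y (i + 1)) P := by
    refine lam_congr hm c2 (hC.mul_left c1) ?_
    have e : Y (i + 2) - C (-1) * Y (i + 1) = - Y i := by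
      rw [C_neg, C_1]
      linear_combination hs
    rw [e]
    exact (dvd_neg).2 hdv
  rw [h1, lam_mul_left hm hC c1, lam_C hm (neg_ne_zero.2 one_ne_zero)]

private theorem lam_one' {P : F[X]} (hP : P.Monic) : lam 1 P = 0 := by
  apply sg_inj
  rw [← js_eq_sg hP isCoprime_one_left, js_one_left hP, sg_zero]

private theorem lam_prod {P : F[X]} (hP : P.Monic) (s : Finset F[X])
    (hs : ∀ R ∈ s, IsCoprime R P) :
    lam (∏ R ∈ s, R) P = ∑ R ∈ s, lam R P := by
  classical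
  induction s using Finset.induction_on with
  | empty => rw [Finset.prod_empty, Finset.sum_empty, lam_one' hP]
  | insert a s ha ih =>
    have h1 : ∀ R ∈ s, IsCoprime R P := fun R hR => hs R (Finset.mem_insert_of_mem hR)
    rw [Finset.prod_insert ha, Finset.sum_insert ha,
      lam_mul_left hP (hs a (Finset.mem_insert_self a s)) (IsCoprime.prod_left h1), ih h1]

private theorem tr_cpp (h : Tr d Y) {i j : Fin 3} (hij : i ≠ j) {P R : F[X]}
    (hP : P ∈ pf (Y i)) (hR : R ∈ pf (Y j)) : IsCoprime R P :=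
  (tr_cpr h hij hP).of_isCoprime_of_dvd_left (mem_pf' hR).2.2

theorem tr_lam (h : Tr d Y) {i j : Fin 3} (hij : i ≠ j) {P : F[X]} (hP : P ∈ pf (Y i)) :
    lam (Y j) P = bt (Y j).leadingCoeff * (P.natDegree : ZMod 2) +
      ∑ R ∈ pf (Y j), lam R P := by
  obtain ⟨hm, _, _⟩ := mem_pf' hP
  have hl : (Y j).leadingCoeff ≠ 0 := leadingCoeff_ne_zero.2 (tr_ne h j)
  have hc : ∀ R ∈ pf (Y j), IsCoprime R P := fun R hR => tr_cpp h hij hP hR
  conv_lhs => rw [tr_fac h j]
  rw [lam_mul_left hm (jsB_coprime_C hl P) (IsCoprime.prod_left hc), lam_C hm hl,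
    lam_prod hm _ hc]

theorem tr_rec (h : Tr d Y) {i j : Fin 3} (hij : i ≠ j) {P R : F[X]} (hP : P ∈ pf (Y i))
    (hR : R ∈ pf (Y j)) :
    lam R P + lam P R = bt (-1 : F) * ((P.natDegree : ZMod 2) * (R.natDegree : ZMod 2)) := by
  rw [lam_recip (mem_pf' hR).1 (mem_pf' hP).1 (tr_cpp h hij hP hR), add_assoc,
    CharTwo.add_self_eq_zero, add_zero, mul_comm (R.natDegree : ZMod 2)]

end Pool.Agent.H3.SB
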