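import Pool.Agent.H3.SB.BSY
import Pool.Agent.H3.SA.Defs

set_option autoImplicit false

/-!
# The form of three polynomials with sum zero
-/

namespace Pool.Agent.H3.SB

open Polynomial
open Pool.Agent.H94.PC
open Pool.Agent.H94.PS
open Pool.Agent.H3

variable {F : Type} [Field F] [Finite F] {d : ℕ} {Y : Fin 3 → F[X]}

/-- the form -/
noncomputable def frm (h : Tr d Y) : SA.Frm (SX Y) where
  W := WX Y
  M := LinearMap.mk₂ (ZMod 2) (bf Y) (bf_add_left Y)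
    (fun c x y => by rw [bf_smul_left, smul_eq_mul]) (bf_add_right Y)
    (fun c x y => by rw [bf_smul_right, smul_eq_mul])
  one := one_mem h
  sym := fun _ hx _ hy => bf_sym h hx hy
  chr := fun _ hx => bf_chr h hx

theorem frm_W (h : Tr d Y) : (frm h).W = WX Y := rfl

theorem frm_M (h : Tr d Y) (x y : SX Y → ZMod 2) : (frm h).M x y = bf Y x y := rfl

/-- the non-tiny primes of the three classes -/
noncomputable def Med (d : ℕ) (Y : Fin 3 → F[X]) (i : Fin 3) : Finset (SX Y) :=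
  SA.FS fun p : SX Y => p.1 = i ∧ thr d ≤ p.2.1.natDegree

/-- the medium primes of the three classes -/
noncomputable def Mdm (d e : ℕ) (Y : Fin 3 → F[X]) (i : Fin 3) : Finset (SX Y) :=
  SA.FS fun p : SX Y => p.1 = i ∧ thr d ≤ p.2.1.natDegree ∧ p.2.1.natDegree + e < d

/-- there is a Selmer class that is carried by the tiny primes -/
def Bad (d : ℕ) (Y : Fin 3 → F[X]) : Prop :=
  ∃ x ∈ RadX Y, x ≠ 0 ∧ ∃ a : Fin 3 → ZMod 2, a 0 + a 1 + a 2 = 0 ∧
    ∀ i, ∀ P : {P // P ∈ pf (Y i)}, thr d ≤ P.1.natDegree → x ⟨i, P⟩ = a i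

/-- the labelling `z` is not killed -/
def NK (th : ZMod 2) (d e : ℕ) (Y : Fin 3 → F[X]) {k : ℕ} (z : SX Y → SA.V k) : Prop :=
  ∀ p₀ p₁ p₂ : SX Y, p₀.1 = 0 → p₁.1 = 1 → p₂.1 = 2 → d ≤ p₀.2.1.natDegree + e →
    d ≤ p₁.2.1.natDegree + e → d ≤ p₂.2.1.natDegree + e →
    H74.SL.NotKilled th (z p₀) (z p₁) (z p₂) (SA.im z (Mdm d e Y 0)) (SA.im z (Mdm d e Y 1))
      (SA.im z (Mdm d e Y 2))

end Pool.Agent.H3.SB
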