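import Pool.Agent.H3.SB.RAD
import Pool.Agent.H3.SA.THR
import Pool.Agent.H3.SA.TS
import Pool.Agent.H74.SL.Cls

set_option autoImplicit false

/-!
# [H3 SB LRG] The labellings which are not killed

`2 e < d`, `thr d ≤ d - e`, each `Y i` has a prime factor of degree `≥ d - e` (`Fm d e Y`).
* `lrg_uniq`: two different primes of degree `≥ d - e` of the same class: their product divides `Y i`, so `2 (d - e) ≤ d` (or `tr_deg`: the sum of the degrees is `d`), a contradiction.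
* `med_eq`: a non-tiny prime is medium or large (`Med = Mdm ∪ {large}`); `Mdm ⊆ Med`.
* `nk_ul`: `UL (Med d Y) 0 z → NK 0 d e Y z`: all the six values are `q (z p + z r + z t) + 0` with `p, r, t ∈ Med` (`SL.L`, and `SL.q v = dotp v.1 v.2 = SA.q v` by `dotp_comm`; see `sl_q` in `SA/BAS.lean` if it is there).
* `nk_zero`: `NK 0 d e Y z`, not `Sml (Mdm d e Y) z` implies `UL (Med d Y) 0 z`: let `p 0, p 1, p 2` be the large primes, `i, j, l` their labels; `SL.classes` with `e = 0`: the first alternative is `Sml`; so there is `Λ` with `Lag 2 k Λ`, the three label sets of the medium primes are the cosets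
  `i + Λ`, `j + Λ`, `l + Λ`, and `SL.w (i + j + l) u = SL.q u` on `Λ`, i.e. `i + j + l ∈ TU Λ` (`w_comm`).  For `p, r, t ∈ Med`: the labels are in these cosets (`med_eq`, `lrg_uniq`; `i + i = 0 ∈ Λ`), so `z p + z r + z t + (i + j + l) ∈ Λ`, so it is in `TU Λ` (`tu_iff`), `q = 0` (`tu_q`).
* `nk_one`: `NK 1 d e Y z` implies `Sml (Mdm d e Y) z`: `SL.classes` with `e = 1 ≠ 0`.
-/

namespace Pool.Agent.H3.SB

open Polynomial
open Pool.Agent.H94.PC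
open Pool.Agent.H94.PS
open Pool.Agent.H3

variable {F : Type} [Field F] [Finite F] {d e : ℕ} {Y : Fin 3 → F[X]} {k : ℕ}

private theorem sl_q' (v : SA.V k) : H74.SL.q v = SA.q v := SA.dotp_comm _ _

private theorem sl_w' (u v : SA.V k) : H74.SL.w u v = SA.w u v := by
  unfold H74.SL.w SA.w
  rw [SA.dotp_comm u.1 v.2, SA.dotp_comm v.1 u.2, add_comm]

theorem lrg_ex (h : Fm d e Y) (i : Fin 3) : ∃ p : SX Y, p.1 = i ∧ d ≤ p.2.1.natDegree + e := by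
  obtain ⟨P, hP, h1⟩ := h.2 i
  exact ⟨⟨i, ⟨P, hP⟩⟩, rfl, h1⟩

theorem lrg_uniq (h : Tr d Y) (he : 2 * e < d) {p r : SX Y} (hpr : p.1 = r.1)
    (hp : d ≤ p.2.1.natDegree + e) (hr : d ≤ r.2.1.natDegree + e) : p = r := by
  classical
  obtain ⟨i, P⟩ := p
  obtain ⟨j, R⟩ := r
  have hij : i = j := hpr
  subst hij
  by_contra hne
  have hPR : P.1 ≠ R.1 := by
    intro h1
    exact hne (by rw [Subtype.ext h1])
  have h1 := tr_deg h i
  have h2 : P.1.natDegree + R.1.natDegree ≤ ∑ Q ∈ pf (Y i), Q.natDegree := by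
    rw [← Finset.sum_pair hPR]
    refine Finset.sum_le_sum_of_subset fun Q hQ => ?_
    rw [Finset.mem_insert, Finset.mem_singleton] at hQ
    rcases hQ with rfl | rfl
    · exact P.2
    · exact R.2
  rw [h1] at h2
  have hp' : d ≤ P.1.natDegree + e := hp
  have hr' : d ≤ R.1.natDegree + e := hr
  omega

theorem mem_Med {i : Fin 3} {p : SX Y} :
    p ∈ Med d Y i ↔ p.1 = i ∧ thr d ≤ p.2.1.natDegree := by
  unfold Med
  exact SA.mem_FS

theorem mem_Mdm {i : Fin 3} {p : SX Y} :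
    p ∈ Mdm d e Y i ↔ p.1 = i ∧ thr d ≤ p.2.1.natDegree ∧ p.2.1.natDegree + e < d := by
  unfold Mdm
  exact SA.mem_FS

private theorem mdm_lab {z : SX Y → SA.V k} {i : Fin 3} {u : SA.V k}
    (hu : u ∈ SA.im z (Mdm d e Y i)) : ∃ p ∈ Med d Y i, z p = u := by
  obtain ⟨p, hp, rfl⟩ := Finset.mem_image.1 hu
  rw [mem_Mdm] at hp
  exact ⟨p, mem_Med.2 ⟨hp.1, hp.2.1⟩, rfl⟩

theorem nk_ul (ht : thr d + e ≤ d) {z : SX Y → SA.V k} (hz : SA.UL (Med d Y) 0 z) :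
    NK 0 d e Y z := by
  intro p₀ p₁ p₂ h0 h1 h2 g0 g1 g2
  have m0 : p₀ ∈ Med d Y 0 := mem_Med.2 ⟨h0, by omega⟩
  have m1 : p₁ ∈ Med d Y 1 := mem_Med.2 ⟨h1, by omega⟩
  have m2 : p₂ ∈ Med d Y 2 := mem_Med.2 ⟨h2, by omega⟩
  have key : ∀ p ∈ Med d Y 0, ∀ r ∈ Med d Y 1, ∀ t ∈ Med d Y 2,
      H74.SL.L 0 (z p) (z r) (z t) = 0 := by
    intro p hp r hr t ht'
    unfold H74.SL.L
    rw [sl_q', hz p hp r hr t ht', add_zero]
  refine ⟨?_, ?_, ?_, ?_, ?_, ?_⟩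
  · intro u hu
    obtain ⟨p, hp, rfl⟩ := mdm_lab hu
    exact key p hp p₁ m1 p₂ m2
  · intro v hv
    obtain ⟨p, hp, rfl⟩ := mdm_lab hv
    exact key p₀ m0 p hp p₂ m2
  · intro t ht'
    obtain ⟨p, hp, rfl⟩ := mdm_lab ht'
    exact key p₀ m0 p₁ m1 p hp
  · intro u hu v hv
    obtain ⟨p, hp, rfl⟩ := mdm_lab hu
    obtain ⟨r, hr, rfl⟩ := mdm_lab hv
    exact key p hp r hr p₂ m2
  · intro u hu t ht'
    obtain ⟨p, hp, rfl⟩ := mdm_lab hu
    obtain ⟨r, hr, rfl⟩ := mdm_lab ht'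
    exact key p hp p₁ m1 r hr
  · intro v hv t ht'
    obtain ⟨p, hp, rfl⟩ := mdm_lab hv
    obtain ⟨r, hr, rfl⟩ := mdm_lab ht'
    exact key p₀ m0 p hp r hr

private theorem v_two (x : SA.V k) : x + x = 0 := by
  have h3 : (2 : ZMod 2) = 0 := rfl
  rw [← two_smul (ZMod 2) x, h3, zero_smul]

theorem nk_zero (h : Fm d e Y) (he : 2 * e < d) {z : SX Y → SA.V k}
    (hz : NK 0 d e Y z) (hs : ¬ SA.Sml (Mdm d e Y) z) : SA.UL (Med d Y) 0 z := by
  obtain ⟨p0, a0, b0⟩ := lrg_ex h 0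
  obtain ⟨p1, a1, b1⟩ := lrg_ex h 1
  obtain ⟨p2, a2, b2⟩ := lrg_ex h 2
  rcases H74.SL.classes (hz p0 p1 p2 a0 a1 a2 b0 b1 b2) with h1 | ⟨_, Λ, hΛ, hA, hB, hC, hw⟩
  · exact absurd h1 hs
  have hT : z p0 + z p1 + z p2 ∈ SA.TU Λ := by
    intro u hu
    rw [SA.w_comm, ← sl_w', ← sl_q']
    exact hw u hu
  have key : ∀ {i : Fin 3} {p : SX Y}, p.1 = i → d ≤ p.2.1.natDegree + e →
      (∀ x, x ∈ SA.im z (Mdm d e Y i) ↔ x + z p ∈ Λ) → ∀ r ∈ Med d Y i, z r + z p ∈ Λ := by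
    intro i p hp hl hI r hr
    rw [mem_Med] at hr
    by_cases hd : r.2.1.natDegree + e < d
    · exact (hI (z r)).1 (Finset.mem_image_of_mem z (mem_Mdm.2 ⟨hr.1, hr.2, hd⟩))
    · have h2 : r = p := lrg_uniq h.1 he (hr.1.trans hp.symm) (Nat.le_of_not_lt hd) hl
      rw [h2, v_two]
      exact Λ.zero_mem
  intro p hp r hr t ht
  have k0 := key a0 b0 hA p hp
  have k1 := key a1 b1 hB r hr
  have k2 := key a2 b2 hC t ht
  have h3 : z p + z r + z t + (z p0 + z p1 + z p2) ∈ Λ := by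
    have h4 := Λ.add_mem (Λ.add_mem k0 k1) k2
    have e5 : z p + z r + z t + (z p0 + z p1 + z p2) =
        z p + z p0 + (z r + z p1) + (z t + z p2) := by abel
    rw [e5]
    exact h4
  exact SA.tu_q hΛ ((SA.tu_iff hΛ hT).2 h3)

theorem nk_one (h : Fm d e Y) {z : SX Y → SA.V k} (hz : NK 1 d e Y z) :
    SA.Sml (Mdm d e Y) z := by
  obtain ⟨p0, a0, b0⟩ := lrg_ex h 0
  obtain ⟨p1, a1, b1⟩ := lrg_ex h 1
  obtain ⟨p2, a2, b2⟩ := lrg_ex h 2
  rcases H74.SL.classes (hz p0 p1 p2 a0 a1 a2 b0 b1 b2) with h1 | ⟨h1, _⟩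
  · exact h1
  · exact absurd h1 one_ne_zero

end Pool.Agent.H3.SB
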