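import Pool.Agent.H3.SB.CRD
import Pool.Agent.H3.SA.DEC
import Pool.Agent.H3.SA.CNT

set_option autoImplicit false

/-!
# [H3 SB PW] The pointwise theorem

Let `f = frm h.1`, `W = WX Y`, `d` odd and `Big`, `2 e < d`.
* `¬ Bad d Y` is `SA.NoTiny f (Med d Y)` (`rad_frm`, `mem_Med`; here only non-tiny primes of the class `i` are in `Med d Y i`).
* `pw_main`: `∑_{WV, NK 0} sg = ∑_{WV, UL Med 0} sg + ∑_{WV, NK 0, not UL Med 0} sg` (`nk_ul`), the second sum has at most `#{Sml (Mdm d e Y)}` terms (`nk_zero`).  `SA.dec` for `Med`, `cc_med`, `cc_mdm`, `SA.cnt_sml` for `Med` and `Mdm` (`card_W`), `#{z ∈ WV, Sml} ≤ #{Sml}`: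
  the error is at most `((1 + X) + 1) X 4 ^ k (1 - 1 / 8 ^ k) ^ L 2 ^ (11 k δ) card W ^ k` with `X = 8 ^ (4 ^ k) ≥ 1`, and `(2 + X) X ≤ 4 X ^ 2`, `X ^ 2 = 64 ^ (4 ^ k)`.
* `pw_one`: `nk_one`, `cnt_sml` for `Mdm`.
* `pw_all`: `th = 0`: `nk_zero`: `#{NK 0} ≤ #{UL Med 0} + #{Sml Mdm}`, `cnt_ul`, `cnt_sml`, `(1 - 1 / 8 ^ k) ^ L ≤ 1`; `th = 1`: `pw_one`; `2 X ≤ 4 X ^ 2`.
-/

namespace Pool.Agent.H3.SB

open Polynomial
open Pool.Agent.H94.PC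
open Pool.Agent.H94.PS
open Pool.Agent.H94.PN (Lk)
open Pool.Agent.H3

/-- the bound for the number of the labellings which are not killed -/
noncomputable def errb (k d : ℕ) : ℝ := 4 * 64 ^ (4 ^ k) * 4 ^ k * 2 ^ (11 * k * dlt d)

/-- the error term -/
noncomputable def err (k d : ℕ) : ℝ := errb k d * (1 - 1 / 8 ^ k) ^ ⌊Real.log d⌋₊

variable {F : Type} [Field F] [Finite F] {d e : ℕ} {Y : Fin 3 → F[X]}

private theorem big_thr (hb : Big d) (he : 2 * e < d) : thr d + e ≤ d := by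
  have := hb.2
  omega

private theorem not_bad (h : Fm d e Y) (hd : Odd d) (hB : ¬ Bad d Y) :
    SA.NoTiny (frm h.1) (Med d Y) := by
  intro x hx a ha h0
  rw [rad_frm h.1 hd] at hx
  by_contra hne
  exact hB ⟨x, hx, hne, a, h0, fun i P hP => ha i ⟨i, P⟩ (mem_Med.2 ⟨rfl, hP⟩)⟩

private theorem x_ge (k : ℕ) : (1 : ℝ) ≤ 8 ^ (4 ^ k) := one_le_pow₀ (by norm_num)

private theorem x_sq (k : ℕ) : ((8 : ℝ) ^ (4 ^ k)) ^ 2 = 64 ^ (4 ^ k) := by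
  rw [← pow_mul, mul_comm, pow_mul]
  norm_num

private theorem b_nonneg (k L : ℕ) : (0 : ℝ) ≤ (1 - 1 / 8 ^ k) ^ L := by
  refine pow_nonneg ?_ L
  have h1 : (1 : ℝ) ≤ 8 ^ k := one_le_pow₀ (by norm_num)
  rw [sub_nonneg, div_le_one (by positivity)]
  exact h1

private theorem b_le_one (k L : ℕ) : (1 - 1 / 8 ^ k : ℝ) ^ L ≤ 1 := by
  refine pow_le_one₀ ?_ ?_
  · have h1 : (1 : ℝ) ≤ 8 ^ k := one_le_pow₀ (by norm_num)
    rw [sub_nonneg, div_le_one (by positivity)]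
    exact h1
  · rw [sub_le_self_iff]
    positivity

private theorem sml_med (hb : Big d) (he : 2 * e < d) (h : Fm d e Y) (ht : Typ d Y) (k : ℕ) :
    ((SA.FS (fun z : SX Y → SA.V k => SA.Sml (Med d Y) z)).card : ℝ) ≤
      8 ^ (4 ^ k) * 4 ^ k * (1 - 1 / 8 ^ k) ^ ⌊Real.log d⌋₊ * 2 ^ (11 * k * dlt d) *
        (Nat.card (WX Y) : ℝ) ^ k := by
  have c := cc_med hb h he ht
  exact SA.cnt_sml (frm h.1) c.ne c.dj c.lo c.up c.tot (card_W Y) k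

private theorem sml_mdm (hb : Big d) (he : 2 * e < d) (h : Fm d e Y) (ht : Typ d Y) (k : ℕ) :
    ((SA.FS (fun z : SX Y → SA.V k => SA.Sml (Mdm d e Y) z)).card : ℝ) ≤
      8 ^ (4 ^ k) * 4 ^ k * (1 - 1 / 8 ^ k) ^ ⌊Real.log d⌋₊ * 2 ^ (11 * k * dlt d) *
        (Nat.card (WX Y) : ℝ) ^ k := by
  have c := cc_mdm hb h he ht
  exact SA.cnt_sml (frm h.1) c.ne c.dj c.lo c.up c.tot (card_W Y) k

private theorem card_mono {α : Type} [Finite α] {P Q : α → Prop} (h : ∀ a, P a → Q a) :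
    ((SA.FS P).card : ℝ) ≤ ((SA.FS Q).card : ℝ) := by
  have h1 : (SA.FS P).card ≤ (SA.FS Q).card :=
    Finset.card_le_card fun a ha => SA.mem_FS.2 (h a (SA.mem_FS.1 ha))
  exact_mod_cast h1

theorem pw_main (hb : Big d) (hd : Odd d) (he : 2 * e < d) (h : Fm d e Y) (ht : Typ d Y)
    (hB : ¬ Bad d Y) (k : ℕ) :
    |∑ z ∈ SA.FS (fun z : SX Y → SA.V k => z ∈ SA.WV (frm h.1) k ∧ NK 0 d e Y z),
      SA.sg (SA.MV (frm h.1) z) - (Lk 2 k : ℝ) * (Nat.card (WX Y) : ℝ) ^ k| ≤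
      err k d * (Nat.card (WX Y) : ℝ) ^ k := by
  classical
  have hdec := SA.dec (frm h.1) (cc_med hb h he ht).ne (not_bad h hd hB) k
  rw [frm_W] at hdec
  set R : ℝ := 8 ^ (4 ^ k) * 4 ^ k * (1 - 1 / 8 ^ k) ^ ⌊Real.log d⌋₊ * 2 ^ (11 * k * dlt d) *
        (Nat.card (WX Y) : ℝ) ^ k with hR
  have e1 : ∑ z ∈ SA.FS (fun z : SX Y → SA.V k => z ∈ SA.WV (frm h.1) k ∧ NK 0 d e Y z),
      SA.sg (SA.MV (frm h.1) z) =
      ∑ z ∈ SA.FS (fun z : SX Y → SA.V k => z ∈ SA.WV (frm h.1) k ∧ SA.UL (Med d Y) 0 z),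
        SA.sg (SA.MV (frm h.1) z) +
      ∑ z ∈ SA.FS (fun z : SX Y → SA.V k => z ∈ SA.WV (frm h.1) k ∧ NK 0 d e Y z ∧
        ¬ SA.UL (Med d Y) 0 z), SA.sg (SA.MV (frm h.1) z) := by
    rw [← Finset.sum_filter_add_sum_filter_not _ (fun z => SA.UL (Med d Y) 0 z)]
    congr 1
    · refine Finset.sum_congr ?_ fun _ _ => rfl
      ext z
      rw [Finset.mem_filter, SA.mem_FS, SA.mem_FS]
      constructor
      · rintro ⟨⟨h1, _⟩, h3⟩
        exact ⟨h1, h3⟩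
      · rintro ⟨h1, h3⟩
        exact ⟨⟨h1, nk_ul (big_thr hb he) h3⟩, h3⟩
    · refine Finset.sum_congr ?_ fun _ _ => rfl
      ext z
      rw [Finset.mem_filter, SA.mem_FS, SA.mem_FS, and_assoc]
  have e2 : |∑ z ∈ SA.FS (fun z : SX Y → SA.V k => z ∈ SA.WV (frm h.1) k ∧ NK 0 d e Y z ∧
        ¬ SA.UL (Med d Y) 0 z), SA.sg (SA.MV (frm h.1) z)| ≤ R := by
    refine (Finset.abs_sum_le_sum_abs _ _).trans ?_
    rw [Finset.sum_congr rfl fun z _ => SA.abs_sg _, Finset.sum_const, nsmul_eq_mul, mul_one]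
    refine (card_mono (Q := fun z : SX Y → SA.V k => SA.Sml (Mdm d e Y) z) ?_).trans
      (sml_mdm hb he h ht k)
    rintro z ⟨_, h2, h3⟩
    by_contra hs
    exact h3 (nk_zero h he h2 hs)
  have e3 : ((SA.FS (fun z : SX Y → SA.V k => z ∈ SA.WV (frm h.1) k ∧
      SA.Sml (Med d Y) z)).card : ℝ) ≤ R :=
    (card_mono (Q := fun z : SX Y → SA.V k => SA.Sml (Med d Y) z) fun z hz => hz.2).trans
      (sml_med hb he h ht k)
  have hX := x_ge k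
  have hR0 : 0 ≤ R := by
    rw [hR]
    have := b_nonneg k ⌊Real.log d⌋₊
    positivity
  rw [e1]
  have e4 : |∑ z ∈ SA.FS (fun z : SX Y → SA.V k => z ∈ SA.WV (frm h.1) k ∧
        SA.UL (Med d Y) 0 z), SA.sg (SA.MV (frm h.1) z) +
      ∑ z ∈ SA.FS (fun z : SX Y → SA.V k => z ∈ SA.WV (frm h.1) k ∧ NK 0 d e Y z ∧
        ¬ SA.UL (Med d Y) 0 z), SA.sg (SA.MV (frm h.1) z) -
      (Lk 2 k : ℝ) * (Nat.card (WX Y) : ℝ) ^ k| ≤ (1 + 8 ^ (4 ^ k)) * R + R := by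
    have e5 : ∀ a b c : ℝ, a + b - c = (a - c) + b := fun a b c => by ring
    rw [e5]
    refine (abs_add_le _ _).trans (add_le_add ?_ e2)
    exact hdec.trans (mul_le_mul_of_nonneg_left e3 (by positivity))
  refine e4.trans ?_
  have e6 : err k d * (Nat.card (WX Y) : ℝ) ^ k = 4 * 8 ^ (4 ^ k) * R := by
    rw [hR]
    unfold err errb
    rw [← x_sq k]
    ring
  rw [e6]
  nlinarith [mul_nonneg hR0 (sub_nonneg.2 hX)]

theorem pw_one (hb : Big d) (he : 2 * e < d) (h : Fm d e Y) (ht : Typ d Y) (k : ℕ) :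
    ((SA.FS (fun z : SX Y → SA.V k => NK 1 d e Y z)).card : ℝ) ≤
      err k d * (Nat.card (WX Y) : ℝ) ^ k := by
  have e1 := (card_mono (P := fun z : SX Y → SA.V k => NK 1 d e Y z)
    (Q := fun z : SX Y → SA.V k => SA.Sml (Mdm d e Y) z) fun z hz => nk_one h hz).trans
      (sml_mdm hb he h ht k)
  refine e1.trans ?_
  unfold err errb
  rw [← x_sq k]
  have hX := x_ge k
  have hL := b_nonneg k ⌊Real.log d⌋₊
  have h0 : (0 : ℝ) ≤ 8 ^ (4 ^ k) * 4 ^ k * (1 - 1 / 8 ^ k) ^ ⌊Real.log d⌋₊ *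
      2 ^ (11 * k * dlt d) * (Nat.card (WX Y) : ℝ) ^ k := by positivity
  calc 8 ^ (4 ^ k) * 4 ^ k * (1 - 1 / 8 ^ k) ^ ⌊Real.log d⌋₊ * 2 ^ (11 * k * dlt d) *
        (Nat.card (WX Y) : ℝ) ^ k
      ≤ (4 * 8 ^ (4 ^ k)) * (8 ^ (4 ^ k) * 4 ^ k * (1 - 1 / 8 ^ k) ^ ⌊Real.log d⌋₊ *
        2 ^ (11 * k * dlt d) * (Nat.card (WX Y) : ℝ) ^ k) := by nlinarith
    _ = _ := by ring

theorem pw_all (hb : Big d) (he : 2 * e < d) (h : Fm d e Y) (ht : Typ d Y) (k : ℕ)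
    (th : ZMod 2) :
    ((SA.FS (fun z : SX Y → SA.V k => NK th d e Y z)).card : ℝ) ≤
      errb k d * (Nat.card (WX Y) : ℝ) ^ k := by
  classical
  have hX := x_ge k
  have hL := b_le_one k ⌊Real.log d⌋₊
  have hbb : 0 ≤ errb k d * (Nat.card (WX Y) : ℝ) ^ k := by
    unfold errb
    positivity
  rcases SA.z2 th with rfl | rfl
  · have c := cc_med hb h he ht
    have e1 : ((SA.FS (fun z : SX Y → SA.V k => SA.UL (Med d Y) 0 z)).card : ℝ) ≤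
        8 ^ (4 ^ k) * 4 ^ k * 2 ^ (11 * k * dlt d) * (Nat.card (WX Y) : ℝ) ^ k :=
      SA.cnt_ul (frm h.1) c.ne c.dj c.lo c.up c.tot (card_W Y) k 0
    have e2 := sml_mdm hb he h ht k
    have e3 : ((SA.FS (fun z : SX Y → SA.V k => NK 0 d e Y z)).card : ℝ) ≤
        ((SA.FS (fun z : SX Y → SA.V k => SA.UL (Med d Y) 0 z)).card : ℝ) +
        ((SA.FS (fun z : SX Y → SA.V k => SA.Sml (Mdm d e Y) z)).card : ℝ) := by
      have h1 : (SA.FS (fun z : SX Y → SA.V k => NK 0 d e Y z)).card ≤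
          (SA.FS (fun z : SX Y → SA.V k => SA.UL (Med d Y) 0 z)).card +
          (SA.FS (fun z : SX Y → SA.V k => SA.Sml (Mdm d e Y) z)).card := by
        refine (Finset.card_le_card ?_).trans (Finset.card_union_le _ _)
        intro z hz
        rw [Finset.mem_union, SA.mem_FS, SA.mem_FS]
        by_cases hs : SA.Sml (Mdm d e Y) z
        · exact Or.inr hs
        · exact Or.inl (nk_zero h he (SA.mem_FS.1 hz) hs)
      exact_mod_cast h1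
    set A : ℝ := 8 ^ (4 ^ k) * 4 ^ k * 2 ^ (11 * k * dlt d) * (Nat.card (WX Y) : ℝ) ^ k with hA
    have hA0 : 0 ≤ A := by rw [hA]; positivity
    have e4 : 8 ^ (4 ^ k) * 4 ^ k * (1 - 1 / 8 ^ k) ^ ⌊Real.log d⌋₊ * 2 ^ (11 * k * dlt d) *
        (Nat.card (WX Y) : ℝ) ^ k ≤ A := by
      have e5 : 8 ^ (4 ^ k) * 4 ^ k * (1 - 1 / 8 ^ k) ^ ⌊Real.log d⌋₊ *
          2 ^ (11 * k * dlt d) * (Nat.card (WX Y) : ℝ) ^ k =
          (1 - 1 / 8 ^ k) ^ ⌊Real.log d⌋₊ * A := by rw [hA]; ring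
      rw [e5]
      exact mul_le_of_le_one_left hA0 hL
    have e6 : errb k d * (Nat.card (WX Y) : ℝ) ^ k = 4 * 8 ^ (4 ^ k) * A := by
      rw [hA]
      unfold errb
      rw [← x_sq k]
      ring
    rw [e6]
    have e7 : A + A ≤ 4 * 8 ^ (4 ^ k) * A := by nlinarith
    linarith
  · refine (pw_one hb he h ht k).trans ?_
    unfold err
    have e8 : errb k d * (1 - 1 / 8 ^ k) ^ ⌊Real.log d⌋₊ * (Nat.card (WX Y) : ℝ) ^ k =
        (1 - 1 / 8 ^ k) ^ ⌊Real.log d⌋₊ * (errb k d * (Nat.card (WX Y) : ℝ) ^ k) := by ring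
    rw [e8]
    exact mul_le_of_le_one_left hbb hL

end Pool.Agent.H3.SB
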