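import Pool.Agent.H3.SB.Frm

set_option autoImplicit false

/-!
# [H3 SB RAD] The radical of the form is `RadX Y`; the size of `WX Y`

`d` odd.  `ε = bt (-1)`, `s p = ∑ r, mx Y p r * x r`, so `bf Y x y = ∑ p, y p * s p`.
* `RadX Y ≤ rad`: clear.
* `rad ≤ RadX Y`: let `x ∈ WX Y` with `bf Y x y = 0` for all `y ∈ WX Y`.
  (i) There are `a : Fin 3 → ZMod 2` with `a 0 + a 1 + a 2 = 0` and `s p = a p.1 * deg p` for all `p`.  Proof: since `d` is odd each class `i` contains a prime `o i` of odd degree (`tr_deg`).  Put `a i = s (o i) * 1` (`deg (o i) = 1` in `ZMod 2`).  For `p` of class `i` with even degree the vector `y = [p]` is in `WX Y`: `s p = 0`.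
  For `p` of class `i` with odd degree `y = [p] + [o i]` is in `WX Y` (or `p = o i`): `s p = s (o i) = a i`.  And `y = [o 0] + [o 1] + [o 2] ∈ WX Y`: `a 0 + a 1 + a 2 = 0`.  (`[p] = Pi.single p 1`.)
  (ii) Let `1_i` be the indicator of the class `i` (`y p = 1` iff `p.1 = i`).  `∑_{p.1 = i} s p = a i * d = a i` (`tr_deg`, `d` odd).  On the other hand `∑_{p.1 = i} s p = bf Y x 1_i = ee Y i (i + 1) x + tt Y i (i + 1) x 1 + tt Y i (i + 2) x 1` (`bf_eq`; `tt Y i j x 1_i = tt Y i j x 1` and `tt Y j l x 1_i = 0` for `j ≠ i`, directly from the definitions)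
  `= ee Y i (i + 1) x + ee Y (i + 1) i x + ee Y (i + 2) i x + (bt (lc i) + ε d) (dgp Y x (i + 1) + dgp Y x (i + 2))` (`tt_one` with `i, j` exchanged), and the last bracket is `0` (`x ∈ WX Y`); `ee Y (i + 1) i x = ee Y (i + 1) (i + 1 + 2) x = ε dgp Y x (i + 1) + ee Y (i + 1) (i + 2) x` (`ee_two`), `ee Y (i + 2) i x = ee Y (i + 2) (i + 2 + 1) x`.
  So `a i = ∑ j, ee Y j (j + 1) x + ε * dgp Y x 0` is the same for all `i`; with `a 0 + a 1 + a 2 = 0` all `a i = 0` (characteristic `2`: `3 a = a`), so `s = 0` and `x ∈ RadX Y`.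
* `card_W`: `WX Y` is the kernel of the linear map `x ↦ (dgp Y x 1 - dgp Y x 0, dgp Y x 2 - dgp Y x 0)` to `ZMod 2 × ZMod 2` (of cardinality `4`): `card (SX Y → ZMod 2) = card ker * card range ≤ card ker * 4`.
-/

namespace Pool.Agent.H3.SB

open Polynomial
open Pool.Agent.H94.PC
open Pool.Agent.H94.PS
open Pool.Agent.H3

variable {F : Type} [Field F] [Finite F] {d : ℕ} {Y : Fin 3 → F[X]}

/-- the rows of the matrix applied to `x` -/
noncomputable def rw_ (Y : Fin 3 → F[X]) (x : SX Y → ZMod 2) (p : SX Y) : ZMod 2 :=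
  ∑ r, mx Y p r * x r

theorem bf_rw (Y : Fin 3 → F[X]) (x y : SX Y → ZMod 2) : bf Y x y = ∑ p, y p * rw_ Y x p := rfl

theorem bf_single (Y : Fin 3 → F[X]) [DecidableEq (SX Y)] (x : SX Y → ZMod 2) (p : SX Y) :
    bf Y x (Pi.single p 1) = rw_ Y x p := by
  rw [bf_rw, Finset.sum_eq_single p]
  · rw [Pi.single_eq_same, one_mul]
  · intro r _ hr
    rw [Pi.single_eq_of_ne hr, zero_mul]
  · intro h
    exact absurd (Finset.mem_univ p) h

theorem dgp_add (Y : Fin 3 → F[X]) (x y : SX Y → ZMod 2) (i : Fin 3) :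
    dgp Y (x + y) i = dgp Y x i + dgp Y y i := by
  unfold dgp
  rw [← Finset.sum_add_distrib]
  exact Finset.sum_congr rfl fun P _ => by rw [Pi.add_apply, add_mul]

theorem dgp_smul (Y : Fin 3 → F[X]) (c : ZMod 2) (x : SX Y → ZMod 2) (i : Fin 3) :
    dgp Y (c • x) i = c * dgp Y x i := by
  unfold dgp
  rw [Finset.mul_sum]
  exact Finset.sum_congr rfl fun P _ => by rw [Pi.smul_apply, smul_eq_mul, mul_assoc]

theorem dgp_single (Y : Fin 3 → F[X]) [DecidableEq (SX Y)] (p : SX Y) (i : Fin 3) :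
    dgp Y (Pi.single p 1) i = if p.1 = i then (p.2.1.natDegree : ZMod 2) else 0 := by
  obtain ⟨j, Q⟩ := p
  unfold dgp
  by_cases hji : j = i
  · subst hji
    rw [if_pos rfl, Finset.sum_eq_single Q]
    · rw [Pi.single_eq_same, one_mul]
    · intro R _ hR
      rw [Pi.single_eq_of_ne, zero_mul]
      intro h
      rw [Sigma.mk.injEq] at h
      exact hR (eq_of_heq h.2)
    · intro h
      exact absurd (Finset.mem_univ Q) h
  · rw [if_neg hji]
    apply Finset.sum_eq_zero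
    intro R _
    rw [Pi.single_eq_of_ne, zero_mul]
    intro h
    exact hji (congrArg Sigma.fst h).symm

theorem ex_odd (h : Tr d Y) (hd : Odd d) (i : Fin 3) :
    ∃ P : {P // P ∈ pf (Y i)}, (P.1.natDegree : ZMod 2) = 1 := by
  have h1 := dgp_one h i
  have h2 : (d : ZMod 2) = 1 := by
    obtain ⟨k, hk⟩ := hd
    rw [hk]
    push_cast
    have h4 : (2 : ZMod 2) = 0 := rfl
    rw [h4]
    ring
  rw [h2] at h1
  by_contra hcon
  push Not at hcon
  have h3 : ∀ P : {P // P ∈ pf (Y i)}, (P.1.natDegree : ZMod 2) = 0 := by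
    intro P
    have h4 : ∀ t : ZMod 2, t ≠ 1 → t = 0 := by decide
    exact h4 _ (hcon P)
  have h4 : dgp Y 1 i = 0 := by
    unfold dgp
    exact Finset.sum_eq_zero fun P _ => by rw [h3 P, mul_zero]
  rw [h4] at h1
  exact absurd h1 (by decide)

theorem row_sum (Y : Fin 3 → F[X]) (x : SX Y → ZMod 2) (i : Fin 3) :
    ∑ P : {P // P ∈ pf (Y i)}, rw_ Y x ⟨i, P⟩ =
      ∑ j : Fin 3, ∑ P : {P // P ∈ pf (Y i)}, ∑ R : {P // P ∈ pf (Y j)},
        (1 : SX Y → ZMod 2) ⟨i, P⟩ * (mx Y ⟨i, P⟩ ⟨j, R⟩ * x ⟨j, R⟩) := by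
  rw [Finset.sum_comm]
  refine Finset.sum_congr rfl fun P _ => ?_
  unfold rw_
  rw [Fintype.sum_sigma]
  refine Finset.sum_congr rfl fun j _ => Finset.sum_congr rfl fun R _ => ?_
  rw [Pi.one_apply, one_mul]

theorem row_class (h : Tr d Y) {x : SX Y → ZMod 2} (hx : x ∈ WX Y) (i : Fin 3) :
    ∑ P : {P // P ∈ pf (Y i)}, rw_ Y x ⟨i, P⟩ =
      ee Y 0 1 x + ee Y 1 2 x + ee Y 2 0 x + bt (-1 : F) * dgp Y x 0 := by
  have g1 : dgp Y x 1 = dgp Y x 0 := hx 1
  have g2 : dgp Y x 2 = dgp Y x 0 := hx 2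
  have h4 : (2 : ZMod 2) = 0 := rfl
  have t0 := ee_two h 0 x
  have t1 := ee_two h 1 x
  have t2 := ee_two h 2 x
  have q0 : (0 : Fin 3) + 2 = 2 := rfl
  have q0' : (0 : Fin 3) + 1 = 1 := rfl
  have q1 : (1 : Fin 3) + 2 = 0 := rfl
  have q1' : (1 : Fin 3) + 1 = 2 := rfl
  have q2 : (2 : Fin 3) + 2 = 1 := rfl
  have q2' : (2 : Fin 3) + 1 = 0 := rfl
  rw [q0, q0'] at t0
  rw [q1, q1'] at t1
  rw [q2, q2'] at t2
  have n01 : (0 : Fin 3) ≠ 1 := by decide
  have n02 : (0 : Fin 3) ≠ 2 := by decide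
  have n10 : (1 : Fin 3) ≠ 0 := by decide
  have n12 : (1 : Fin 3) ≠ 2 := by decide
  have n20 : (2 : Fin 3) ≠ 0 := by decide
  have n21 : (2 : Fin 3) ≠ 1 := by decide
  rw [row_sum, Fin.sum_univ_three]
  have hcases : i = 0 ∨ i = 1 ∨ i = 2 := by
    fin_cases i <;> simp
  rcases hcases with rfl | rfl | rfl
  · rw [block_eq Y x 1 0, block_ne Y x 1 n01, block_ne Y x 1 n02, mul_one, q0',
      tt_one h n10 x, tt_one h n20 x, g1, g2]
    rw [g1] at t1
    linear_combination t1 +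
      ((bt (Y 0).leadingCoeff + bt (-1 : F) * (d : ZMod 2)) * dgp Y x 0) * h4
  · rw [block_ne Y x 1 n10, block_eq Y x 1 1, block_ne Y x 1 n12, mul_one, q1',
      tt_one h n01 x, tt_one h n21 x, g2]
    rw [g2] at t2
    linear_combination t2 +
      ((bt (Y 1).leadingCoeff + bt (-1 : F) * (d : ZMod 2)) * dgp Y x 0) * h4
  · rw [block_ne Y x 1 n20, block_ne Y x 1 n21, block_eq Y x 1 2, mul_one, q2',
      tt_one h n02 x, tt_one h n12 x, g1]
    linear_combination t0 +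
      ((bt (Y 2).leadingCoeff + bt (-1 : F) * (d : ZMod 2)) * dgp Y x 0) * h4

theorem rad_frm (h : Tr d Y) (hd : Odd d) : SA.rad (frm h) = RadX Y := by
  classical
  have h4 : (2 : ZMod 2) = 0 := rfl
  have hd1 : (d : ZMod 2) = 1 := by
    obtain ⟨k, hk⟩ := hd
    rw [hk]
    push_cast
    rw [h4]
    ring
  ext x
  rw [SA.mem_rad]
  constructor
  · rintro ⟨hxW, hx⟩
    rw [frm_W] at hxW
    have hx' : ∀ y ∈ WX Y, bf Y x y = 0 := fun y hy => by
      have := hx y (by rw [frm_W]; exact hy)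
      rwa [frm_M] at this
    choose o ho using ex_odd h hd
    have hs : ∀ p : SX Y, rw_ Y x p = rw_ Y x ⟨p.1, o p.1⟩ * (p.2.1.natDegree : ZMod 2) := by
      intro p
      have hy : (Pi.single p 1 + (p.2.1.natDegree : ZMod 2) • Pi.single ⟨p.1, o p.1⟩ 1 :
          SX Y → ZMod 2) ∈ WX Y := by
        have hz : ∀ i, dgp Y (Pi.single p 1 + (p.2.1.natDegree : ZMod 2) •
            Pi.single ⟨p.1, o p.1⟩ 1 : SX Y → ZMod 2) i = 0 := by
          intro i
          rw [dgp_add, dgp_smul, dgp_single, dgp_single]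
          by_cases hi : p.1 = i
          · rw [if_pos hi, if_pos hi, ho]
            linear_combination (p.2.1.natDegree : ZMod 2) * h4
          · rw [if_neg hi, if_neg hi]
            ring
        intro i
        rw [hz, hz]
      have h1 := hx' _ hy
      rw [bf_add_right, bf_smul_right, bf_single, bf_single] at h1
      linear_combination h1 - (rw_ Y x ⟨p.1, o p.1⟩ * (p.2.1.natDegree : ZMod 2)) * h4
    have hsum : rw_ Y x ⟨0, o 0⟩ + rw_ Y x ⟨1, o 1⟩ + rw_ Y x ⟨2, o 2⟩ = 0 := by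
      have hy : (Pi.single ⟨0, o 0⟩ 1 + Pi.single ⟨1, o 1⟩ 1 + Pi.single ⟨2, o 2⟩ 1 :
          SX Y → ZMod 2) ∈ WX Y := by
        have hz : ∀ i, dgp Y (Pi.single ⟨0, o 0⟩ 1 + Pi.single ⟨1, o 1⟩ 1 +
            Pi.single ⟨2, o 2⟩ 1 : SX Y → ZMod 2) i = 1 := by
          intro i
          rw [dgp_add, dgp_add, dgp_single, dgp_single, dgp_single]
          simp only [ho]
          fin_cases i <;> simp
        intro i
        rw [hz, hz]
      have h1 := hx' _ hy
      rwa [bf_add_right, bf_add_right, bf_single, bf_single, bf_single] at h1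
    have hcl : ∀ i, rw_ Y x ⟨i, o i⟩ =
        ee Y 0 1 x + ee Y 1 2 x + ee Y 2 0 x + bt (-1 : F) * dgp Y x 0 := by
      intro i
      rw [← row_class h hxW i]
      have h1 : ∀ P : {P // P ∈ pf (Y i)}, rw_ Y x ⟨i, P⟩ =
          rw_ Y x ⟨i, o i⟩ * (P.1.natDegree : ZMod 2) := fun P => hs ⟨i, P⟩
      rw [Finset.sum_congr rfl fun P _ => h1 P, ← Finset.mul_sum]
      have h2 := dgp_one h i
      unfold dgp at h2
      have h3 : ∑ P : {P // P ∈ pf (Y i)}, (P.1.natDegree : ZMod 2) = 1 := by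
        rw [← hd1, ← h2]
        exact Finset.sum_congr rfl fun P _ => by rw [Pi.one_apply, one_mul]
      rw [h3, mul_one]
    have hzero : ∀ i, rw_ Y x ⟨i, o i⟩ = 0 := by
      have h1 : ∀ i, rw_ Y x ⟨i, o i⟩ = rw_ Y x ⟨0, o 0⟩ := fun i => by rw [hcl i, hcl 0]
      rw [h1 1, h1 2] at hsum
      intro i
      rw [h1 i]
      linear_combination hsum - (rw_ Y x ⟨0, o 0⟩) * h4
    refine ⟨hxW, fun p => ?_⟩
    have h1 := hs p
    rw [hzero, zero_mul] at h1
    exact h1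
  · rintro ⟨hxW, hx⟩
    refine ⟨by rw [frm_W]; exact hxW, fun y _ => ?_⟩
    rw [frm_M]
    unfold bf
    exact Finset.sum_eq_zero fun p _ => by rw [hx p, mul_zero]

theorem card_W (Y : Fin 3 → F[X]) : 2 ^ Nat.card (SX Y) ≤ 4 * Nat.card (WX Y) := by
  classical
  obtain ⟨φ, hφ⟩ : ∃ φ : (SX Y → ZMod 2) →ₗ[ZMod 2] (ZMod 2 × ZMod 2), ∀ x, φ x =
      (dgp Y x 1 - dgp Y x 0, dgp Y x 2 - dgp Y x 0) := by
    refine ⟨{ toFun := fun x => (dgp Y x 1 - dgp Y x 0, dgp Y x 2 - dgp Y x 0),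
              map_add' := fun x y => ?_, map_smul' := fun c x => ?_ }, fun _ => rfl⟩
    · simp only [dgp_add, Prod.mk_add_mk]
      ext <;> simp <;> ring
    · simp only [dgp_smul, RingHom.id_apply, Prod.smul_mk, smul_eq_mul]
      ext <;> simp <;> ring
  have hker : LinearMap.ker φ = WX Y := by
    ext x
    rw [LinearMap.mem_ker, hφ, Prod.mk_eq_zero, sub_eq_zero, sub_eq_zero]
    constructor
    · rintro ⟨h1, h2⟩ i
      fin_cases i
      · rfl
      · exact h1
      · exact h2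
    · intro hx
      exact ⟨hx 1, hx 2⟩
  have h1 := LinearMap.finrank_range_add_finrank_ker φ
  rw [hker, Module.finrank_fintype_fun_eq_card] at h1
  have h2 : Module.finrank (ZMod 2) (LinearMap.range φ) ≤ 2 := by
    refine (Submodule.finrank_le _).trans ?_
    rw [Module.finrank_prod, Module.finrank_self]
  have h3 : Nat.card (WX Y) = 2 ^ Module.finrank (ZMod 2) (WX Y) := by
    rw [Module.natCard_eq_pow_finrank (K := ZMod 2), Nat.card_zmod]
  rw [h3, Nat.card_eq_fintype_card, ← h1, pow_add]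
  apply Nat.mul_le_mul_right
  calc 2 ^ Module.finrank (ZMod 2) (LinearMap.range φ) ≤ 2 ^ 2 :=
        Nat.pow_le_pow_right (by norm_num) h2
    _ = 4 := by norm_num

theorem card_SX (Y : Fin 3 → F[X]) : Nat.card (SX Y) = om (Y 0) + om (Y 1) + om (Y 2) := by
  rw [Nat.card_eq_fintype_card, Fintype.card_sigma, Fin.sum_univ_three]
  simp only [Fintype.card_coe]
  rfl

end Pool.Agent.H3.SB
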