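import Pool.Agent.H3.SB.FCT

set_option autoImplicit false

/-!
# [H3 SB TT] The blocks of the form `bf Y`

`tt Y i j x y = ∑_{P ∣ Y i} ∑_{R ∣ Y j} y_P x_R lam R P`, `dd Y i x y = ∑_{P ∣ Y i} y_P x_P lam (Y (i + 1)) P`, `dgp Y x i = ∑_{P ∣ Y i} x_P deg P`.

* `bf_eq`: `bf Y x y = ∑ p, y p * ∑ r, mx Y p r * x r`; sums over `SX Y` are double sums (`Fintype.sum_sigma`), `Fin.sum_univ_three`; the block `(i, j)`, `i ≠ j`, is `tt Y i j x y` (`mx` is `lam R P`, as `p ≠ r` and `p.1 ≠ r.1`); the block `(i, i)`: only `r = p` counts (`mx Y p r = 0` for `p ≠ r`, `p.1 = r.1`; `Finset.sum_eq_single`).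
* `tt_sym`: interchange the sums in the second term, `tr_rec`, and `∑ P, ∑ R, y_P x_R deg P deg R = dgp Y y i * dgp Y x j` (`Finset.sum_mul_sum`).
* `tt_one`: interchange the sums; for `R ∣ Y i`: `∑_{P ∣ Y j} lam R P = ∑_{P ∣ Y j} (bt (-1) deg R deg P + lam P R) = bt (-1) * deg R * d + (lam (Y j) R + bt (leadingCoeff) * deg R)` (`tr_rec`, `tr_deg`, `tr_lam`, characteristic `2`); multiply by `x_R` and sum over `R`.
* `ee_two`: `tr_two`.
-/

namespace Pool.Agent.H3.SB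

open Polynomial
open Pool.Agent.H94.PC
open Pool.Agent.H94.PS

variable {F : Type} [Field F] [Finite F] {d : ℕ} {Y : Fin 3 → F[X]}

/-- a block outside of the diagonal -/
noncomputable def tt (Y : Fin 3 → F[X]) (i j : Fin 3) (x y : SX Y → ZMod 2) : ZMod 2 :=
  ∑ P : {P // P ∈ pf (Y i)}, ∑ R : {P // P ∈ pf (Y j)}, y ⟨i, P⟩ * x ⟨j, R⟩ * lam R.1 P.1

/-- `∑_{P ∣ Y i} x_P lam (Y j) P` -/
noncomputable def ee (Y : Fin 3 → F[X]) (i j : Fin 3) (x : SX Y → ZMod 2) : ZMod 2 :=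
  ∑ P : {P // P ∈ pf (Y i)}, x ⟨i, P⟩ * lam (Y j) P.1

theorem bf_blocks (Y : Fin 3 → F[X]) (x y : SX Y → ZMod 2) :
    bf Y x y = ∑ i : Fin 3, ∑ j : Fin 3, ∑ P : {P // P ∈ pf (Y i)}, ∑ R : {P // P ∈ pf (Y j)},
      y ⟨i, P⟩ * (mx Y ⟨i, P⟩ ⟨j, R⟩ * x ⟨j, R⟩) := by
  unfold bf
  rw [Fintype.sum_sigma]
  refine Finset.sum_congr rfl fun i _ => ?_
  rw [Finset.sum_comm]
  refine Finset.sum_congr rfl fun P _ => ?_
  rw [Fintype.sum_sigma, Finset.mul_sum]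
  refine Finset.sum_congr rfl fun j _ => ?_
  rw [Finset.mul_sum]

theorem block_ne (Y : Fin 3 → F[X]) (x y : SX Y → ZMod 2) {i j : Fin 3} (hij : i ≠ j) :
    ∑ P : {P // P ∈ pf (Y i)}, ∑ R : {P // P ∈ pf (Y j)},
      y ⟨i, P⟩ * (mx Y ⟨i, P⟩ ⟨j, R⟩ * x ⟨j, R⟩) = tt Y i j x y := by
  unfold tt
  refine Finset.sum_congr rfl fun P _ => Finset.sum_congr rfl fun R _ => ?_
  have h1 : mx Y ⟨i, P⟩ ⟨j, R⟩ = lam R.1 P.1 := by
    unfold mx
    rw [if_neg fun h => hij (congrArg Sigma.fst h), if_neg hij]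
  rw [h1]
  ring

theorem block_eq (Y : Fin 3 → F[X]) (x y : SX Y → ZMod 2) (i : Fin 3) :
    ∑ P : {P // P ∈ pf (Y i)}, ∑ R : {P // P ∈ pf (Y i)},
      y ⟨i, P⟩ * (mx Y ⟨i, P⟩ ⟨i, R⟩ * x ⟨i, R⟩) = ee Y i (i + 1) (x * y) := by
  unfold ee
  refine Finset.sum_congr rfl fun P _ => ?_
  rw [Finset.sum_eq_single P]
  · have h1 : mx Y ⟨i, P⟩ ⟨i, P⟩ = lam (Y (i + 1)) P.1 := by
      unfold mx
      rw [if_pos rfl]
    rw [h1, Pi.mul_apply]
    ring
  · intro R _ hR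
    have h1 : mx Y ⟨i, P⟩ ⟨i, R⟩ = 0 := by
      unfold mx
      rw [if_neg, if_pos rfl]
      intro h
      rw [Sigma.mk.injEq] at h
      exact hR (eq_of_heq h.2).symm
    rw [h1]
    ring
  · intro h
    exact absurd (Finset.mem_univ P) h

theorem bf_eq (Y : Fin 3 → F[X]) (x y : SX Y → ZMod 2) :
    bf Y x y = ee Y 0 1 (x * y) + ee Y 1 2 (x * y) + ee Y 2 0 (x * y) +
      (tt Y 0 1 x y + tt Y 1 0 x y) + (tt Y 0 2 x y + tt Y 2 0 x y) +
      (tt Y 1 2 x y + tt Y 2 1 x y) := by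
  have e0 := block_eq Y x y 0
  have e1 := block_eq Y x y 1
  have e2 := block_eq Y x y 2
  have g0 : (0 : Fin 3) + 1 = 1 := rfl
  have g1 : (1 : Fin 3) + 1 = 2 := rfl
  have g2 : (2 : Fin 3) + 1 = 0 := rfl
  rw [g0] at e0
  rw [g1] at e1
  rw [g2] at e2
  rw [bf_blocks]
  simp only [Fin.sum_univ_three (f := fun i : Fin 3 => ∑ j : Fin 3, ∑ P : {P // P ∈ pf (Y i)},
    ∑ R : {P // P ∈ pf (Y j)}, y ⟨i, P⟩ * (mx Y ⟨i, P⟩ ⟨j, R⟩ * x ⟨j, R⟩))]
  rw [Fin.sum_univ_three, Fin.sum_univ_three, Fin.sum_univ_three, e0, e1, e2,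
    block_ne Y x y (show (0 : Fin 3) ≠ 1 by decide), block_ne Y x y (show (0 : Fin 3) ≠ 2 by decide),
    block_ne Y x y (show (1 : Fin 3) ≠ 0 by decide), block_ne Y x y (show (1 : Fin 3) ≠ 2 by decide),
    block_ne Y x y (show (2 : Fin 3) ≠ 0 by decide), block_ne Y x y (show (2 : Fin 3) ≠ 1 by decide)]
  ring

theorem tt_sym (h : Tr d Y) {i j : Fin 3} (hij : i ≠ j) (x y : SX Y → ZMod 2) :
    tt Y i j x y + tt Y j i y x = bt (-1 : F) * (dgp Y y i * dgp Y x j) := by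
  unfold tt dgp
  rw [Finset.sum_comm (s := (Finset.univ : Finset {P // P ∈ pf (Y j)})), Finset.sum_mul_sum,
    ← Finset.sum_add_distrib, Finset.mul_sum]
  refine Finset.sum_congr rfl fun P _ => ?_
  rw [← Finset.sum_add_distrib, Finset.mul_sum]
  refine Finset.sum_congr rfl fun R _ => ?_
  have h1 := tr_rec h hij P.2 R.2
  linear_combination (y ⟨i, P⟩ * x ⟨j, R⟩) * h1

theorem tt_one (h : Tr d Y) {i j : Fin 3} (hij : i ≠ j) (x : SX Y → ZMod 2) :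
    tt Y j i x 1 = ee Y i j x +
      (bt (Y j).leadingCoeff + bt (-1 : F) * (d : ZMod 2)) * dgp Y x i := by
  unfold tt dgp ee
  rw [Finset.sum_comm, Finset.mul_sum, ← Finset.sum_add_distrib]
  refine Finset.sum_congr rfl fun R _ => ?_
  have h1 : ∑ P : {P // P ∈ pf (Y j)}, lam R.1 P.1 =
      bt (-1 : F) * (d : ZMod 2) * (R.1.natDegree : ZMod 2) +
        ∑ P : {P // P ∈ pf (Y j)}, lam P.1 R.1 := by
    have h2 : ∀ P : {P // P ∈ pf (Y j)}, lam R.1 P.1 =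
        bt (-1 : F) * (P.1.natDegree : ZMod 2) * (R.1.natDegree : ZMod 2) + lam P.1 R.1 := by
      intro P
      have h3 := tr_rec h hij R.2 P.2
      have h4 : (2 : ZMod 2) = 0 := rfl
      linear_combination h3 - lam P.1 R.1 * h4
    rw [Finset.sum_congr rfl fun P _ => h2 P, Finset.sum_add_distrib, ← Finset.sum_mul,
      ← Finset.mul_sum]
    have h5 : ∑ P : {P // P ∈ pf (Y j)}, (P.1.natDegree : ZMod 2) = (d : ZMod 2) := by
      have h6 := tr_deg h j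
      rw [← h6, Nat.cast_sum]
      exact Finset.sum_coe_sort (pf (Y j)) fun P => (P.natDegree : ZMod 2)
    rw [h5]
  have h7 := tr_lam h hij R.2
  have h8 : ∑ P : {P // P ∈ pf (Y j)}, lam P.1 R.1 = ∑ P ∈ pf (Y j), lam P R.1 :=
    Finset.sum_coe_sort (pf (Y j)) fun P => lam P R.1
  have h9 : ∑ P : {P // P ∈ pf (Y j)}, (1 : SX Y → ZMod 2) ⟨j, P⟩ * x ⟨i, R⟩ * lam R.1 P.1 =
      x ⟨i, R⟩ * ∑ P : {P // P ∈ pf (Y j)}, lam R.1 P.1 := by
    rw [Finset.mul_sum]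
    refine Finset.sum_congr rfl fun P _ => ?_
    rw [Pi.one_apply, one_mul]
  rw [h9, h1, h8]
  have h4 : (2 : ZMod 2) = 0 := rfl
  linear_combination (-x ⟨i, R⟩) * h7 -
    (bt (Y j).leadingCoeff * x ⟨i, R⟩ * (R.1.natDegree : ZMod 2)) * h4

theorem ee_two (h : Tr d Y) (i : Fin 3) (x : SX Y → ZMod 2) :
    ee Y i (i + 2) x = bt (-1 : F) * dgp Y x i + ee Y i (i + 1) x := by
  unfold ee dgp
  rw [Finset.mul_sum, ← Finset.sum_add_distrib]
  refine Finset.sum_congr rfl fun P _ => ?_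
  rw [tr_two h P.2]
  ring

theorem dgp_one (h : Tr d Y) (i : Fin 3) : dgp Y 1 i = (d : ZMod 2) := by
  unfold dgp
  have h6 := tr_deg h i
  rw [← h6, Nat.cast_sum, ← Finset.sum_coe_sort (pf (Y i)) fun P => (P.natDegree : ZMod 2)]
  refine Finset.sum_congr rfl fun P _ => ?_
  rw [Pi.one_apply, one_mul]

theorem bf_add_left (Y : Fin 3 → F[X]) (x x' y : SX Y → ZMod 2) :
    bf Y (x + x') y = bf Y x y + bf Y x' y := by
  unfold bf
  rw [← Finset.sum_add_distrib]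
  refine Finset.sum_congr rfl fun p _ => ?_
  rw [← mul_add, ← Finset.sum_add_distrib]
  congr 1
  exact Finset.sum_congr rfl fun r _ => by rw [Pi.add_apply, mul_add]

theorem bf_add_right (Y : Fin 3 → F[X]) (x y y' : SX Y → ZMod 2) :
    bf Y x (y + y') = bf Y x y + bf Y x y' := by
  unfold bf
  rw [← Finset.sum_add_distrib]
  exact Finset.sum_congr rfl fun p _ => by rw [Pi.add_apply, add_mul]

theorem bf_smul_left (Y : Fin 3 → F[X]) (c : ZMod 2) (x y : SX Y → ZMod 2) :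
    bf Y (c • x) y = c * bf Y x y := by
  unfold bf
  rw [Finset.mul_sum]
  refine Finset.sum_congr rfl fun p _ => ?_
  have h1 : ∑ r, mx Y p r * (c • x) r = c * ∑ r, mx Y p r * x r := by
    rw [Finset.mul_sum]
    exact Finset.sum_congr rfl fun r _ => by rw [Pi.smul_apply, smul_eq_mul]; ring
  rw [h1]
  ring

theorem bf_smul_right (Y : Fin 3 → F[X]) (c : ZMod 2) (x y : SX Y → ZMod 2) :
    bf Y x (c • y) = c * bf Y x y := by
  unfold bf
  rw [Finset.mul_sum]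
  exact Finset.sum_congr rfl fun p _ => by rw [Pi.smul_apply, smul_eq_mul, mul_assoc]

end Pool.Agent.H3.SB
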